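import Pool.Agent.H22.Flux

set_option autoImplicit false

namespace Pool.Agent.Results.MP_39f9da_an.FinGen
open Pool.Agent.H22.Flux

/-- There is a finitely generated residually finite group with a nonempty strongly irreducible
subshift of finite type that contains no periodic configuration. -/
theorem result : ∃ (G : Type) (_ : Group G) (A : Type) (_ : Fintype A) (X : Set (G → A)),
    Group.FG G ∧ (∀ g : G, g ≠ 1 → ∃ H : Subgroup G, H.FiniteIndex ∧ g ∉ H) ∧
    (∃ (S : Finset G) (P : Set (S → A)), X = {x | ∀ g : G, (fun s : S => x (s.1 * g)) ∈ P}) ∧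
    (∃ D : Finset G, ∀ U V : Finset G, (∀ d ∈ D, ∀ w ∈ U, d * w ∉ V) →
      ∀ x ∈ X, ∀ y ∈ X, ∃ z ∈ X, (∀ w ∈ U, z w = x w) ∧ (∀ w ∈ V, z w = y w)) ∧
    X.Nonempty ∧ ∀ y ∈ X, (Set.range fun g : G => fun h : G => y (h * g)).Infinite :=
  ⟨G, inferInstance, _, inferInstance, X, fg, rf, sft, si, ⟨_, X0⟩, fun _ hy => noper hy⟩

end Pool.Agent.Results.MP_39f9da_an.FinGen
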